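import Pool.Agent.Lib.MP_7682a8_an.KB.Iface

/-! Row QDE: the derivative of `q = (G - 1)/(G + 1)`. -/

set_option autoImplicit false

open Metric Set Filter
open scoped Topology

namespace Pool.Agent.Lib.MP_7682a8_an.KB.H94

open Pool.Agent.Lib.MP_7682a8_an.KB

lemma f_ne {h g : ℂ → ℂ} {δ : ℝ} (O : Om h g δ) {z : ℂ} (hz : z ∈ ball (0 : ℂ) 1) (h0 : z ≠ 0) :
    h z + starRingEnd ℂ (g z) ≠ 0 := by
  intro he
  apply h0
  refine O.inj hz (mem_ball_self one_pos) ?_
  simp only [O.h0, O.g0, map_zero, add_zero]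
  exact he

lemma exp2 (w : ℂ) : Complex.exp (2 * w) = Complex.exp w ^ 2 := by
  rw [← Complex.exp_nat_mul]; norm_num

lemma F_deriv (w : ℂ) (hw : Complex.exp w + 1 ≠ 0) :
    HasDerivAt (fun w : ℂ => (Complex.exp w - 1) / (Complex.exp w + 1))
      (2 * Complex.exp w / (Complex.exp w + 1) ^ 2) w := by
  have h1 := ((Complex.hasDerivAt_exp w).sub_const 1).div
    ((Complex.hasDerivAt_exp w).add_const 1) hw
  refine h1.congr_deriv ?_
  congr 1
  ring

lemma smul_wd (c p s : ℂ) :
    ((ContinuousLinearMap.restrictScalars ℝ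
      (ContinuousLinearMap.toSpanSingleton ℂ c : ℂ →L[ℂ] ℂ)).comp (wd p s)) =
      wd (c * p) (c * s) := by
  ext v
  simp only [wd, ContinuousLinearMap.comp_apply, ContinuousLinearMap.coe_restrictScalars',
    ContinuousLinearMap.toSpanSingleton_apply, ContinuousLinearMap.add_apply,
    ContinuousLinearMap.smul_apply, smul_eq_mul]
  ring

/-- Row QDE. -/
theorem qde (hD : DerStmt) : QdeStmt := by
  intro h g δ ξ O B z hz h0
  have hG := hD h g δ ξ O B z hz
  have he := B.exp z hz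
  rw [exp2] at he
  have hf := f_ne O hz h0
  have hδ : (δ : ℂ) ≠ 0 := by exact_mod_cast O.pos.ne'
  set G := Complex.exp (ξ z) with hGd
  have hG0 : G ≠ 0 := Complex.exp_ne_zero _
  have hm : G - 1 ≠ 0 := by
    intro h1
    apply hf
    rw [← he]
    have : G = 1 := by linear_combination h1
    rw [this]; ring
  have hp : G + 1 ≠ 0 := by
    intro h1
    apply hf
    rw [← he]
    have : G = -1 := by linear_combination h1
    rw [this]; ring
  have hff : ff h g z + δ = (δ : ℂ) * G ^ 2 := by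
    unfold ff
    rw [← he]; ring
  have h1 := (F_deriv (ξ z) hp).hasFDerivAt.restrictScalars ℝ
  have h2 := h1.comp z hG
  have h3 : (fun w : ℂ => (Complex.exp w - 1) / (Complex.exp w + 1)) ∘ ξ = qq ξ := rfl
  rw [h3] at h2
  refine h2.congr_fderiv ?_
  have hz' : starRingEnd ℂ z ≠ 0 := by
    intro hh; apply h0; exact (map_eq_zero _).1 hh
  have e1 : 2 * G / (G + 1) ^ 2 * (deriv h z / (2 * (ff h g z + δ))) =
      qq ξ z * aa h δ ξ z / z := by
    rw [hff]
    unfold qq aa
    rw [exp2, ← hGd]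
    have h5 : G ^ 2 - 1 ≠ 0 := by
      have : G ^ 2 - 1 = (G - 1) * (G + 1) := by ring
      rw [this]; exact mul_ne_zero hm hp
    field_simp
    ring
  have e2 : 2 * G / (G + 1) ^ 2 * (starRingEnd ℂ (deriv g z) / (2 * (ff h g z + δ))) =
      qq ξ z * bb g δ ξ z / starRingEnd ℂ z := by
    rw [hff]
    unfold qq bb
    rw [exp2, ← hGd, map_mul]
    have h5 : G ^ 2 - 1 ≠ 0 := by
      have : G ^ 2 - 1 = (G - 1) * (G + 1) := by ring
      rw [this]; exact mul_ne_zero hm hp
    field_simp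
    ring
  rw [← e1, ← e2, ← smul_wd]

end Pool.Agent.Lib.MP_7682a8_an.KB.H94
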